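import Pool.Agent.N24.RW.Stm

/-!
# The pronull sets of exceptional vectors, and one null set of times
-/

set_option autoImplicit false
set_option linter.all false

namespace Pool.Agent.N262.ZPO

open Polynomial Filter Topology MeasureTheory Pool.Agent.N24.RW

section

variable {ι : Type} [Fintype ι] [DecidableEq ι]

/-- the exceptional vectors -/
def Bad (i j : ι) (D : ℕ) : Set (ι → ℤ) :=
  {a | ¬ ∃ p : ℕ, p.Prime ∧ D < p ∧ (p : ℤ) ∣ a i ∧ ¬ (p : ℤ) ∣ a j}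

theorem proNull_bad (hD : S_CLO) (hO : S_ONE) {i j : ι} (hij : i ≠ j) (D : ℕ) :
    ProNull (Bad i j D) := by
  refine (hD ι).1 _ _ ?_ (hO ι D)
  intro a ha h
  apply ha
  obtain ⟨p, hp, hDp, h1, -, h2⟩ := h i
  exact ⟨p, hp, hDp, h1, h2 j hij.symm⟩

theorem bad_mono (i j : ι) {D D' : ℕ} (h : D ≤ D') : Bad i j D ⊆ Bad i j D' := by
  intro a ha hgood
  obtain ⟨p, hp, hDp, h2⟩ := hgood
  exact ha ⟨p, hp, h.trans_lt hDp, h2⟩

end

/-- density zero -/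
def Null (E : Set ℕ) : Prop :=
  Tendsto (fun N : ℕ => (({j : ℕ | j < N ∧ j ∈ E}.ncard : ℕ) : ℝ) / (N : ℝ)) atTop (𝓝 0)

theorem fin_lt (N : ℕ) (E : Set ℕ) : {j : ℕ | j < N ∧ j ∈ E}.Finite :=
  (Set.finite_Iio N).subset fun _ hj => hj.1

/-- one null set for increasingly many conditions -/
theorem diag {E : ℕ → Set ℕ} (hmono : Monotone E) (h : ∀ k, Null (E k)) :
    ∃ E' : Set ℕ, Null E' ∧ ∀ k, (E k \ E').Finite := by
  classical
  have hg : ∀ k : ℕ, ∃ g : ℕ, ∀ N : ℕ, g ≤ N →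
      (({j : ℕ | j < N ∧ j ∈ E k}.ncard : ℕ) : ℝ) / (N : ℝ) ≤ 1 / ((k : ℝ) + 1) := by
    intro k
    have h1 : ∀ᶠ N : ℕ in atTop,
        (({j : ℕ | j < N ∧ j ∈ E k}.ncard : ℕ) : ℝ) / (N : ℝ) < 1 / ((k : ℝ) + 1) :=
      (h k).eventually (gt_mem_nhds (by positivity))
    obtain ⟨g, hg⟩ := eventually_atTop.1 h1
    exact ⟨g, fun N hN => (hg N hN).le⟩
  choose g hg using hg
  set κ : ℕ → ℕ := fun t => Nat.findGreatest (fun k => g k ≤ t) t with hκ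
  have hκmono : Monotone κ := by
    intro t t' htt
    exact Nat.findGreatest_mono (fun k hk => le_trans hk htt) htt
  have hκge : ∀ k t, k ≤ t → g k ≤ t → k ≤ κ t := fun k t h1 h2 => Nat.le_findGreatest h1 h2
  have hκsp : ∀ t, κ t ≠ 0 → g (κ t) ≤ t := by
    intro t h0
    exact Nat.findGreatest_of_ne_zero (P := fun k => g k ≤ t) (n := t) rfl h0
  refine ⟨{t | t ∈ E (κ t)}, ?_, ?_⟩
  · rw [Null, Metric.tendsto_atTop]
    intro ε hε
    obtain ⟨k₀, hk₀⟩ := exists_nat_one_div_lt hε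
    refine ⟨k₀ + 1 + g (k₀ + 1), fun N hN => ?_⟩
    have hk : k₀ + 1 ≤ κ N := hκge _ _ (by omega) (by omega)
    have hgN : g (κ N) ≤ N := hκsp N (by omega)
    have h0 : (0 : ℝ) ≤ (({j : ℕ | j < N ∧ j ∈ {t | t ∈ E (κ t)}}.ncard : ℕ) : ℝ) / (N : ℝ) := by
      positivity
    rw [Real.dist_eq, sub_zero, abs_of_nonneg h0]
    have h4 : (({j : ℕ | j < N ∧ j ∈ {t | t ∈ E (κ t)}}.ncard : ℕ) : ℝ) ≤
        ({j : ℕ | j < N ∧ j ∈ E (κ N)}.ncard : ℕ) := by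
      refine Nat.cast_le.2 (Set.ncard_le_ncard ?_ (fin_lt _ _))
      rintro j ⟨hj, hj'⟩
      exact ⟨hj, hmono (hκmono hj.le) hj'⟩
    have h5 : (({j : ℕ | j < N ∧ j ∈ {t | t ∈ E (κ t)}}.ncard : ℕ) : ℝ) / (N : ℝ) ≤
        (({j : ℕ | j < N ∧ j ∈ E (κ N)}.ncard : ℕ) : ℝ) / (N : ℝ) :=
      div_le_div_of_nonneg_right h4 (Nat.cast_nonneg _)
    refine (h5.trans (hg (κ N) N hgN)).trans_lt (lt_of_le_of_lt ?_ hk₀)
    apply one_div_le_one_div_of_le (by positivity)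
    have : ((k₀ + 1 : ℕ) : ℝ) ≤ (κ N : ℕ) := by exact_mod_cast hk
    push_cast at this
    linarith
  · intro k
    refine (Set.finite_Iio (k + g k + 1)).subset ?_
    rintro t ⟨ht, ht'⟩
    simp only [Set.mem_Iio]
    by_contra hlt
    exact ht' (hmono (hκge k t (by omega) (by omega)) ht)

/-- for almost all words: one null set of times -/
theorem orb_null (hD : S_CLO) (hO : S_ONE) (hM : S_MAIN) {ι : Type} [Fintype ι] [DecidableEq ι]
    {i j : ι} (hij : i ≠ j) (W : Walk ι) (v : ι → ℤ) (hv : v ≠ 0) :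
    ∀ᵐ w ∂(words W.m), ∃ E : Set ℕ, Null E ∧ ∀ D, ∃ K : ℕ, ∀ k, K ≤ k → k ∉ E →
      orb W v w k ∉ Bad i j D := by
  have hcard : 2 ≤ Fintype.card ι := by
    have : Nontrivial ι := ⟨⟨i, j, hij⟩⟩
    exact Fintype.one_lt_card
  have h1 : ∀ D, AlmostNever W v (Bad i j D) := fun D =>
    hM ι hcard W v hv _ (proNull_bad hD hO hij D)
  have h2 : ∀ᵐ w ∂(words W.m), ∀ D : ℕ, Tendsto (fun N : ℕ =>
      (({n : ℕ | n < N ∧ orb W v w n ∈ Bad i j D}.ncard : ℕ) : ℝ) / (N : ℝ)) atTop (𝓝 0) :=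
    ae_all_iff.2 fun D => h1 D
  filter_upwards [h2] with w hw
  obtain ⟨E, hE, hfin⟩ := diag (E := fun D => {k | orb W v w k ∈ Bad i j D})
    (fun D D' hDD k hk => bad_mono i j hDD hk) (fun D => hw D)
  refine ⟨E, hE, fun D => ?_⟩
  obtain ⟨K, hK⟩ := (hfin D).bddAbove
  refine ⟨K + 1, fun k hk hkE hbad => ?_⟩
  have := hK ⟨hbad, hkE⟩
  omega

end Pool.Agent.N262.ZPO
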