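import Pool.Agent.Y92.ZX.AAll

/-!
# The local criterion for families
-/

set_option autoImplicit false
set_option linter.all false

open UpperHalfPlane H294ZP Polynomial IsDedekindDomain NumberField

namespace Pool.Agent.N262.ZPO

open Pool.Agent.Y226 Pool.Agent.Y226.ZG Pool.Agent.Y226.ZM Pool.Agent.Y226.ZU Pool.Agent.Y92.ZX

/-- The local criterion for families over the affine line. -/
theorem fam_prime_all (n : ℕ) (κ : Type) [Finite κ] (d₀ : ℕ)
    (F : κ → MvPolynomial (Fin n × Bool) QA[X])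
    (hF : GM d₀ (Polynomial.evalRingHom (0 : QA)) F) (lam : Fin n → QA[X])
    (hlam : ∀ i, 0 < (lam i).natDegree) (Γ : Finset ℂ) (hΓ : ∀ γ ∈ Γ, IsAlgebraic ℚ γ) :
    ∃ D : ℕ, ∀ p : ℕ, p.Prime → D < p → ∀ (s : ℕ) (a : ℕ → ℤ), (p : ℤ) ∣ a (s + 1) →
      ¬ (p : ℤ) ∣ a s → a (s + 1) ≠ 0 → ∀ t : ℂ, (minpoly ℚ t).natDegree = s + 1 →
      ∑ k ∈ Finset.range (s + 2), (a k : ℂ) * t ^ k = 0 → ZPC (Γ : Set ℂ) (famP F lam t) := by
  let θ : QA[X] →+* MvPolynomial (Fin 1) QA :=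
    Polynomial.eval₂RingHom MvPolynomial.C (MvPolynomial.X 0)
  have hθ0 : (MvPolynomial.eval (0 : Fin 1 → QA)).comp θ = Polynomial.evalRingHom (0 : QA) := by
    refine Polynomial.ringHom_ext ?_ ?_
    · intro r
      simp [θ]
    · simp [θ]
  have hF' : GM d₀ (MvPolynomial.eval (0 : Fin 1 → QA)) (fun τ => MvPolynomial.map θ (F τ)) := by
    refine GM.map (θ := θ) ?_
    rw [hθ0]
    exact hF
  obtain ⟨D, h⟩ := fam_prime2 fam (Y427.ZX.pt2 Y151.ZX.eva) core_all Y219.ZX.fin n κ d₀ _ hF'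
    lam hlam Γ hΓ
  refine ⟨D, fun p hp hDp s a h1 h2 h3 t ht hr => ?_⟩
  have hS : famS (fun τ => MvPolynomial.map θ (F τ)) lam t = famP F lam t := by
    have hc : (MvPolynomial.eval₂Hom rA (fun _ : Fin 1 => t⁻¹)).comp θ =
        Polynomial.eval₂RingHom rA t⁻¹ := by
      refine Polynomial.ringHom_ext ?_ ?_
      · intro r
        simp [θ]
      · simp [θ]
    have hVS : VS (fun τ => MvPolynomial.map θ (F τ)) (fun _ => t⁻¹) =
        {y | ∀ τ, MvPolynomial.eval₂ (Polynomial.eval₂RingHom rA t⁻¹) (chv none y)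
          (F τ) = 0} := by
      ext y
      show (∀ τ, _ = _) ↔ ∀ τ, _ = _
      refine forall_congr' fun τ => ?_
      rw [MvPolynomial.eval₂_map, hc]
    unfold famS famP
    rw [hVS]
    rfl
  have h4 := h p hp hDp s a h1 h2 h3 t ht hr
  rw [hS] at h4
  exact h4

/-- The same for polynomials with integral coefficients. -/
theorem fam_prime_poly (n : ℕ) (κ : Type) [Finite κ] (d₀ : ℕ)
    (F : κ → MvPolynomial (Fin n × Bool) QA[X])
    (hF : GM d₀ (Polynomial.evalRingHom (0 : QA)) F) (lam : Fin n → QA[X])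
    (hlam : ∀ i, 0 < (lam i).natDegree) (Γ : Finset ℂ) (hΓ : ∀ γ ∈ Γ, IsAlgebraic ℚ γ) :
    ∃ D : ℕ, ∀ p : ℕ, p.Prime → D < p → ∀ f : ℤ[X], 0 < f.natDegree →
      (p : ℤ) ∣ f.leadingCoeff → ¬ (p : ℤ) ∣ f.coeff (f.natDegree - 1) →
      ∀ t : ℂ, (minpoly ℚ t).natDegree = f.natDegree → aeval t f = 0 →
        ZPC (Γ : Set ℂ) (famP F lam t) := by
  obtain ⟨D, hD⟩ := fam_prime_all n κ d₀ F hF lam hlam Γ hΓ
  refine ⟨D, fun p hp hDp f hf h1 h2 t ht hr => ?_⟩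
  obtain ⟨s, hs⟩ : ∃ s, f.natDegree = s + 1 := ⟨f.natDegree - 1, by omega⟩
  have hlc : f.leadingCoeff = f.coeff (s + 1) := by rw [leadingCoeff, hs]
  have hlc0 : f.leadingCoeff ≠ 0 := by
    intro h
    rw [leadingCoeff_eq_zero.1 h, natDegree_zero] at hf
    exact lt_irrefl _ hf
  rw [hs, Nat.add_sub_cancel] at h2
  refine hD p hp hDp s f.coeff (by rw [← hlc]; exact h1) h2 (by rw [← hlc]; exact hlc0) t
    (by rw [ht, hs]) ?_
  rw [aeval_eq_sum_range, hs] at hr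
  rw [← hr]
  refine Finset.sum_congr rfl fun k _ => ?_
  rw [zsmul_eq_mul]

end Pool.Agent.N262.ZPO
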